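import Pool.Agent.H.MP_0d212c.E

set_option autoImplicit false
open Set Filter Topology Function

namespace Pool.Agent.H.MP_f24657

variable {I : Type} [LinearOrder I]

/-- Square variation along a list. -/
def E (f : I → ℝ) : List I → ℝ
  | a :: b :: l => (f b - f a) ^ 2 + E f (b :: l)
  | _ => 0

def V (f : I → ℝ) : Set ℝ := {s : ℝ | ∃ n : ℕ, ∃ α : Fin (n + 1) → I, StrictMono α ∧
  s = ∑ i : Fin n, (f (α i.succ) - f (α i.castSucc)) ^ 2}

omit [LinearOrder I] in
theorem E_ofFn (f : I → ℝ) : ∀ (n : ℕ) (α : Fin (n + 1) → I),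
    E f (List.ofFn α) = ∑ i : Fin n, (f (α i.succ) - f (α i.castSucc)) ^ 2
  | 0, α => by simp [E]
  | n + 1, α => by
    rw [Fin.sum_univ_succ, List.ofFn_succ, List.ofFn_succ, E, ← List.ofFn_succ (f := fun i => α i.succ),
      E_ofFn f n]
    rfl

omit [LinearOrder I] in
theorem E_map (f : I → ℝ) (r : I → I) : ∀ l : List I, E f (l.map r) = E (fun a => f (r a)) l
  | [] => rfl
  | [_] => rfl
  | a :: b :: l => by
    have := E_map f r (b :: l)
    simp only [List.map_cons, E] at this ⊢
    rw [this]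

omit [LinearOrder I] in
theorem E_sub (f : I → ℝ) (c : ℝ) : ∀ l : List I, E (fun a => f a - c) l = E f l
  | [] => rfl
  | [_] => rfl
  | a :: b :: l => by simp only [E, E_sub f c (b :: l), sub_sub_sub_cancel_right]

omit [LinearOrder I] in
theorem E_nonneg (f : I → ℝ) : ∀ l : List I, 0 ≤ E f l
  | [] => le_rfl
  | [_] => le_rfl
  | _ :: b :: l => add_nonneg (sq_nonneg _) (E_nonneg f (b :: l))

omit [LinearOrder I] in
theorem E_append (f : I → ℝ) (m : List I) : ∀ l : List I, E f l + E f m ≤ E f (l ++ m)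
  | [] => by simp [E]
  | [a] => by
    cases m with
    | nil => simp [E]
    | cons b m => simp [E, sq_nonneg]
  | a :: b :: l => by
    have := E_append f m (b :: l)
    simp only [List.cons_append, E] at this ⊢
    linarith

omit [LinearOrder I] in
theorem E_tendsto {ι : Type} {F : Filter ι} {g : ι → I → ℝ} {f : I → ℝ}
    (h : ∀ a, Tendsto (fun i => g i a) F (𝓝 (f a))) :
    ∀ l : List I, Tendsto (fun i => E (g i) l) F (𝓝 (E f l))
  | [] => tendsto_const_nhds
  | [_] => tendsto_const_nhds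
  | a :: b :: l => (((h b).sub (h a)).pow 2).add (E_tendsto h (b :: l))

omit [LinearOrder I] in
theorem E_sum {s : Finset ℕ} {g : ℕ → I → ℝ}
    (h : ∀ a i j, g i a ≠ 0 → g j a ≠ 0 → i = j) :
    ∀ l : List I, E (fun a => ∑ i ∈ s, g i a) l ≤ 2 * ∑ i ∈ s, E (g i) l
  | [] => by simp [E]
  | [_] => by simp [E]
  | a :: b :: l => by
    have := E_sum (s := s) h (b :: l)
    simp only [E, Finset.sum_add_distrib, mul_add]
    refine add_le_add ?_ this
    classical
    have c : ∀ a, (s.filter fun i => g i a ≠ 0).card ≤ 1 := fun a =>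
      Finset.card_le_one.2 fun i hi j hj =>
        h a i j (Finset.mem_filter.1 hi).2 (Finset.mem_filter.1 hj).2
    rw [← Finset.sum_sub_distrib, ← Finset.sum_filter_ne_zero]
    refine sq_sum_le_card_mul_sum_sq.trans (mul_le_mul ?_ (Finset.sum_le_sum_of_subset_of_nonneg
      (Finset.filter_subset _ _) fun _ _ _ => sq_nonneg _)
      (Finset.sum_nonneg fun _ _ => sq_nonneg _) zero_le_two)
    have : (s.filter fun i => g i b - g i a ≠ 0) ⊆
        (s.filter fun i => g i a ≠ 0) ∪ s.filter fun i => g i b ≠ 0 := fun i hi => by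
      simp only [Finset.mem_union, Finset.mem_filter] at hi ⊢
      by_contra e
      push Not at e
      exact hi.2 (by rw [e.1 hi.1, e.2 hi.1, sub_zero])
    have := (Finset.card_le_card this).trans (Finset.card_union_le _ _)
    exact_mod_cast this.trans (add_le_add (c a) (c b))

theorem E_strict (f : I → ℝ) : ∀ (l : List I) (a : I), (a :: l).Pairwise (· ≤ ·) →
    ∃ m, (a :: m).Pairwise (· < ·) ∧ E f (a :: m) = E f (a :: l)
  | [], _, _ => ⟨[], by simp, rfl⟩
  | b :: l, a, h => by
    obtain ⟨m, m1, m2⟩ := E_strict f l b (List.pairwise_cons.1 h).2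
    rcases ((List.pairwise_cons.1 h).1 b (by simp)).eq_or_lt with rfl | e
    · exact ⟨m, m1, by simp [E, m2]⟩
    · refine ⟨b :: m, List.pairwise_cons.2 ⟨fun c hc => ?_, m1⟩, by simp [E, m2]⟩
      rcases List.mem_cons.1 hc with rfl | hc
      · exact e
      · exact e.trans ((List.pairwise_cons.1 m1).1 c hc)

theorem E_chi (γ : I) : ∀ (l : List I) (a : I), (a :: l).Pairwise (· ≤ ·) →
    E ((Iic γ).indicator 1) (a :: l) ≤ (Iic γ).indicator 1 a
  | [], a, _ => indicator_nonneg (fun _ _ => zero_le_one) a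
  | b :: l, a, h => by
    have := E_chi γ l b (List.pairwise_cons.1 h).2
    have e := (List.pairwise_cons.1 h).1 b (by simp)
    rw [E]
    by_cases c : b ≤ γ
    · simp [indicator, c, e.trans c] at this ⊢
      exact this
    · by_cases d : a ≤ γ <;> simp [indicator, c, d] at this ⊢ <;> exact this

theorem mem_V {f : I → ℝ} {s : ℝ} (h : s ∈ V f) : ∃ l : List I, l.Pairwise (· ≤ ·) ∧ E f l = s := by
  obtain ⟨n, α, h1, rfl⟩ := h
  exact ⟨_, List.pairwise_ofFn.2 fun i j e => (h1 e).le, E_ofFn f n α⟩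

theorem zero_V [Nonempty I] (f : I → ℝ) : (0 : ℝ) ∈ V f :=
  ⟨0, fun _ => Classical.arbitrary I, Fin.strictMono_iff_lt_succ.2 fun i => i.elim0, by simp⟩

theorem E_mem [Nonempty I] (f : I → ℝ) {l : List I} (h : l.Pairwise (· ≤ ·)) : E f l ∈ V f := by
  cases l with
  | nil => exact zero_V f
  | cons a l =>
    obtain ⟨m, m1, m2⟩ := E_strict f l a h
    rw [← m2, ← List.ofFn_get (l := a :: m)] at *
    exact ⟨m.length, (a :: m).get, fun i j e => List.pairwise_ofFn.1 m1 e, E_ofFn f _ _⟩

end Pool.Agent.H.MP_f24657
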