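import Pool.Agent.H.MP_f24657.A

set_option autoImplicit false
open Set Filter Topology Function

namespace Pool.Agent.H.MP_f24657

variable {I : Type} [LinearOrder I] [WellFoundedLT I] [OrderTop I] [TopologicalSpace I]
  [OrderTopology I] {X : Type} [NormedAddCommGroup X] [NormedSpace ℝ X]

structure IsJ (T : X →ₗ[ℝ] (I → ℝ)) : Prop where
  inj : Injective T
  rng : ∀ f, (∃ x, T x = f) ↔ Continuous f ∧ f ⊤ = 0 ∧ BddAbove (V f)
  nrm : ∀ x, ‖x‖ = √(sSup (V (T x)))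

variable {T : X →ₗ[ℝ] (I → ℝ)} (hT : IsJ T)
include hT

omit [WellFoundedLT I] [OrderTopology I] in
theorem IsJ.sq (x : X) : ‖x‖ ^ 2 = sSup (V (T x)) := by
  rw [hT.nrm, Real.sq_sqrt (le_csSup ((hT.rng _).1 ⟨x, rfl⟩).2.2 (zero_V _))]

omit [WellFoundedLT I] [OrderTopology I] in
theorem IsJ.le (x : X) {l : List I} (h : l.Pairwise (· ≤ ·)) : E (T x) l ≤ ‖x‖ ^ 2 :=
  hT.sq x ▸ le_csSup ((hT.rng _).1 ⟨x, rfl⟩).2.2 (E_mem _ h)

omit [WellFoundedLT I] [OrderTopology I] in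
theorem IsJ.sq_le {x : X} {C : ℝ} (h : ∀ l : List I, l.Pairwise (· ≤ ·) → E (T x) l ≤ C) :
    ‖x‖ ^ 2 ≤ C := by
  rw [hT.sq]
  refine csSup_le ⟨_, zero_V _⟩ fun s hs => ?_
  obtain ⟨l, l1, rfl⟩ := mem_V hs
  exact h l l1

omit [WellFoundedLT I] [OrderTopology I] in
theorem IsJ.ex {g : I → ℝ} (h1 : Continuous g) (h2 : g ⊤ = 0) {C : ℝ}
    (h : ∀ l : List I, l.Pairwise (· ≤ ·) → E g l ≤ C) : ∃ y, T y = g ∧ ‖y‖ ^ 2 ≤ C := by
  obtain ⟨y, rfl⟩ := (hT.rng g).2 ⟨h1, h2, C, fun s hs => by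
    obtain ⟨l, l1, rfl⟩ := mem_V hs
    exact h l l1⟩
  exact ⟨y, rfl, hT.sq_le h⟩

omit [WellFoundedLT I] [OrderTopology I] in
theorem IsJ.ev (x : X) (a : I) : |T x a| ≤ ‖x‖ := by
  have := hT.le x (l := [a, ⊤]) (by simp)
  simp only [E, ((hT.rng _).1 ⟨x, rfl⟩).2.1, zero_sub, add_zero, neg_sq] at this
  exact abs_le_of_sq_le_sq this (norm_nonneg _)

omit [WellFoundedLT I] in
theorem IsJ.mx (x : X) (γ : I) {C : ℝ} (h : ∀ l : List I, l.Pairwise (· ≤ ·) → (∀ a ∈ l, γ ≤ a) →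
    E (T x) l ≤ C) : ∃ y, (T y = fun a => T x (max a γ)) ∧ ‖y‖ ^ 2 ≤ C := by
  obtain ⟨c1, c2, -⟩ := (hT.rng _).1 ⟨x, rfl⟩
  refine hT.ex (c1.comp (continuous_id.max continuous_const)) (by simpa using c2) fun l hl => ?_
  refine (E_map (T x) (fun a => max a γ) l).symm.trans_le (h _ (hl.map _ fun a b e => max_le_max_right γ e) fun a ha => ?_)
  obtain ⟨b, -, rfl⟩ := List.mem_map.1 ha
  exact le_max_right _ _

theorem IsJ.chi {γ : I} (h : γ < ⊤) : ∃ y, T y = (Iic γ).indicator 1 ∧ ‖y‖ ^ 2 ≤ 1 := by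
  obtain ⟨m, m1, m2⟩ := WellFounded.has_min wellFounded_lt (Ioi γ) ⟨_, h⟩
  have e : Iic γ = Iio m := Set.ext fun a =>
    ⟨fun c => lt_of_le_of_lt c m1, fun c => not_lt.1 fun d => m2 a d c⟩
  refine hT.ex (g := (Iic γ).indicator 1) (IsClopen.continuous_indicator ⟨isClosed_Iic, e ▸ isOpen_Iio⟩ continuous_const)
    (indicator_of_notMem (notMem_Iic.2 h) _) fun l hl => ?_
  cases l with
  | nil => exact zero_le_one
  | cons a l => exact (E_chi γ l a hl).trans (indicator_le_self' (fun _ _ => zero_le_one) a)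

theorem IsJ.tail (x : X) {a β : I} (hβ : β < a) (ha : ∀ b < a, ∃ c, b < c ∧ c < a)
    (hx : ∀ b, a ≤ b → T x b = 0) {η : ℝ} (hη : 0 < η) :
    ∃ γ y, β < γ ∧ γ < a ∧ ‖y‖ ≤ η ∧ T y = (Ioi γ).indicator (T x) := by
  obtain ⟨c1, -, -⟩ := (hT.rng _).1 ⟨x, rfl⟩
  obtain ⟨s, s1, s2⟩ := exists_lt_of_lt_csSup ⟨_, zero_V (T x)⟩
    (show ‖x‖ ^ 2 - (η / 2) ^ 2 < _ by rw [← hT.sq]; linarith [pow_pos (half_pos hη) 2])
  obtain ⟨l, l1, rfl⟩ := mem_V s1
  have t0 : Tendsto (T x) (𝓝[<] a) (𝓝 0) := hx a le_rfl ▸ c1.continuousWithinAt.tendsto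
  have t1 := E_tendsto (F := 𝓝[<] a) (g := fun γ b => T x (min b γ)) (f := T x) (fun b => by
    rcases lt_or_ge b a with e | e
    · refine tendsto_const_nhds.congr' ?_
      filter_upwards [Ioo_mem_nhdsLT e] with γ hγ
      rw [min_eq_left hγ.1.le]
    · rw [hx b e]
      refine t0.congr' ?_
      filter_upwards [self_mem_nhdsWithin] with γ hγ
      rw [min_eq_right (le_trans (le_of_lt hγ) e)]) l
  obtain ⟨b, b1, b2⟩ := (mem_nhdsLT_iff_exists_Ioo_subset' hβ).1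
    ((t1.eventually (lt_mem_nhds s2)).and (t0.abs.eventually
      (gt_mem_nhds (show |(0 : ℝ)| < η / 2 by simpa using hη))))
  obtain ⟨γ, g1, g2⟩ := ha _ (max_lt b1 hβ)
  obtain ⟨g3, g4⟩ := b2 ⟨(le_max_left _ _).trans_lt g1, g2⟩
  obtain ⟨y, y1, y2⟩ := hT.mx x γ (C := (η / 2) ^ 2) fun m m1 m2 => by
    have := (E_append (T x) m (l.map fun b => min b γ)).trans (hT.le x (List.pairwise_append.2
      ⟨l1.map _ fun a b e => min_le_min_right γ e, m1, fun c hc d hd => by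
        obtain ⟨b, -, rfl⟩ := List.mem_map.1 hc
        exact (min_le_right _ _).trans (m2 d hd)⟩))
    rw [E_map] at this
    linarith
  obtain ⟨z, z1, z2⟩ := hT.chi (g2.trans_le le_top)
  refine ⟨γ, y - T x γ • z, (le_max_right _ _).trans_lt g1, g2, (norm_sub_le _ _).trans ?_, ?_⟩
  · have := abs_le_of_sq_le_sq y2 (half_pos hη).le
    have z3 := abs_le_one_iff_mul_self_le_one.2 (pow_two ‖z‖ ▸ z2)
    rw [abs_norm] at this z3
    rw [norm_smul, Real.norm_eq_abs]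
    nlinarith [abs_nonneg (T x γ)]
  · rw [map_sub, map_smul, y1, z1]
    ext b
    rcases le_or_gt b γ with e | e
    · simp [indicator, e]
    · simp [indicator, e, e.le]

theorem IsJ.lim (φ : X →L[ℝ] ℝ) {a β0 : I} (hβ : β0 < a) (ha : ∀ b < a, ∃ c, b < c ∧ c < a)
    {ε : ℝ} (hε : 0 < ε) : ∃ β < a, ∀ x, (∀ b ≤ β, T x b = 0) → (∀ b, a ≤ b → T x b = 0) →
      |φ x| ≤ ε * ‖x‖ := by
  by_contra hn
  push Not at hn
  have h1 : ∀ β : Iio a, ∃ (γ : Iio a) (z : X), β ≤ γ ∧ ‖z‖ ≤ 2 ∧ ε / 2 ≤ φ z ∧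
      ∀ b, T z b ≠ 0 → β.1 < b ∧ b ≤ γ.1 := fun β => by
    obtain ⟨x, x1, x2, x3, x4⟩ : ∃ x, (∀ b ≤ β.1, T x b = 0) ∧ (∀ b, a ≤ b → T x b = 0) ∧
        ‖x‖ ≤ 1 ∧ ε ≤ φ x := by
      obtain ⟨x, x1, x2, x3⟩ := hn β.1 β.2
      have p : 0 < |φ x| := (by positivity : 0 ≤ ε * ‖x‖).trans_lt x3
      refine ⟨(ε / φ x) • x, fun b hb => by simp [x1 b hb], fun b hb => by simp [x2 b hb], ?_, ?_⟩
      · rw [norm_smul, Real.norm_eq_abs, abs_div, abs_of_pos hε, div_mul_eq_mul_div, div_le_one p]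
        exact x3.le
      · rw [map_smul, smul_eq_mul, div_mul_cancel₀ _ (abs_pos.1 p)]
    obtain ⟨γ, y, g1, g2, y1, y2⟩ := hT.tail x β.2 ha x2
      (η := min 1 (ε / 2 / (‖φ‖ + 1))) (by positivity)
    refine ⟨⟨γ, g2⟩, x - y, g1.le, (norm_sub_le _ _).trans (by linarith [min_le_left 1 _ |>.trans' y1]),
      ?_, fun b hb => ?_⟩
    · have := (le_div_iff₀ (by positivity)).1 (y1.trans (min_le_right _ _))
      rw [map_sub]
      nlinarith [(abs_le.1 (φ.le_opNorm y)).2, norm_nonneg y]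
    · rw [map_sub, y2, Pi.sub_apply] at hb
      have e : b ≤ γ := not_lt.1 fun e => hb (by rw [indicator_of_mem (mem_Ioi.2 e), sub_self])
      rw [indicator_of_notMem (notMem_Ioi.2 e), sub_zero] at hb
      exact ⟨not_le.1 fun c => hb (x1 b c), e⟩
  choose G z g1 g2 g3 g4 using h1
  obtain ⟨B, b1⟩ : ∃ B : ℕ → Iio a, ∀ n, B (n + 1) = G (B n) :=
    ⟨fun n => G^[n] ⟨β0, hβ⟩, fun n => iterate_succ_apply' _ _ _⟩
  have b2 : Monotone B := monotone_nat_of_le_succ fun n => b1 n ▸ g1 _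
  have b3 : ∀ b i j, i < j → T (z (B i)) b ≠ 0 → T (z (B j)) b ≠ 0 → False := fun b i j e c d =>
    not_le.2 (g4 _ b d).1 ((g4 _ b c).2.trans (by rw [← b1]; exact b2 e))
  obtain ⟨N, hN⟩ := exists_nat_gt (8 * ‖φ‖ ^ 2 / (ε / 2) ^ 2)
  have n1 : ‖∑ i ∈ Finset.range N, z (B i)‖ ^ 2 ≤ 8 * N := hT.sq_le fun l hl => by
    rw [map_sum, Finset.sum_fn]
    refine (E_sum (fun b i j c d => by
      rcases lt_trichotomy i j with e | e | e
      · exact (b3 b i j e c d).elim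
      · exact e
      · exact (b3 b j i e d c).elim) l).trans ?_
    have := Finset.sum_le_card_nsmul (Finset.range N) (fun i => E (T (z (B i))) l) 4 fun i _ =>
      (hT.le _ hl).trans (by nlinarith [g2 (B i), norm_nonneg (z (B i))])
    rw [Finset.card_range, nsmul_eq_mul] at this
    linarith
  have n2 : N * (ε / 2) ≤ ‖φ‖ * ‖∑ i ∈ Finset.range N, z (B i)‖ := by
    refine le_trans ?_ (abs_le.1 (φ.le_opNorm _)).2
    have := Finset.card_nsmul_le_sum (Finset.range N) (fun i => φ (z (B i))) _ fun i _ => g3 (B i)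
    rwa [Finset.card_range, nsmul_eq_mul, ← map_sum] at this
  have n3 := pow_le_pow_left₀ (by positivity) n2 2
  rw [div_lt_iff₀ (by positivity)] at hN
  have n0 : (0 : ℝ) < N := (pos_iff_pos_of_mul_pos (lt_of_le_of_lt (by positivity) hN)).2 (by positivity)
  rw [mul_pow, mul_pow] at n3
  nlinarith [mul_le_mul_of_nonneg_left n1 (sq_nonneg ‖φ‖), mul_lt_mul_of_pos_left hN n0]

theorem IsJ.fin (φ : X →L[ℝ] ℝ) (a : I) : ∀ ε > 0, ∃ P : Set I, P.Finite ∧ ∀ x,
    (∀ b ∈ P, T x b = 0) → (∀ b, a < b → T x b = 0) → |φ x| ≤ ε * ‖x‖ := by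
  induction a using WellFoundedLT.induction with | ind a ih => ?_
  intro ε hε
  by_cases h0 : ∃ β, β < a
  · by_cases ha : ∀ b < a, ∃ c, b < c ∧ c < a
    · obtain ⟨β, b1, b2⟩ := hT.lim φ h0.choose_spec ha (ε := ε / 3) (by positivity)
      obtain ⟨P, p1, p2⟩ := ih β b1 (ε / 3) (by positivity)
      refine ⟨insert a (insert β P), (p1.insert _).insert _, fun x x1 x2 => ?_⟩
      obtain ⟨y, y1, y2⟩ := hT.mx x β fun l hl _ => hT.le x hl
      have y3 := abs_le_of_sq_le_sq y2 (norm_nonneg _)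
      rw [abs_norm] at y3
      have xb : T x β = 0 := x1 β (by simp)
      have c1 := b2 y (fun b hb => by rw [y1]; simp only [max_eq_right hb, xb]) fun b hb => by
        rw [y1]
        simp only [max_eq_left (b1.le.trans hb)]
        rcases hb.eq_or_lt with rfl | e
        · exact x1 _ (by simp)
        · exact x2 b e
      have c2 := p2 (x - y) (fun b hb => by
        rw [map_sub, y1, Pi.sub_apply, x1 b (by simp [hb])]
        rcases le_total b β with e | e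
        · simp [e, xb]
        · simp [e, x1 b (by simp [hb])]) fun b hb => by simp [y1, hb.le]
      have c3 := abs_add_le (φ (x - y)) (φ y)
      rw [← map_add, sub_add_cancel] at c3
      nlinarith [norm_sub_le x y]
    · push Not at ha
      obtain ⟨β, b1, b2⟩ := ha
      obtain ⟨P, p1, p2⟩ := ih β b1 ε hε
      refine ⟨insert a P, p1.insert _, fun x x1 x2 => p2 x (fun b hb => x1 b (by simp [hb]))
        fun b hb => ?_⟩
      rcases (b2 b hb).eq_or_lt with rfl | e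
      · exact x1 _ (by simp)
      · exact x2 b e
  · push Not at h0
    refine ⟨{a}, finite_singleton a, fun x x1 x2 => ?_⟩
    obtain rfl : x = 0 := hT.inj (by
      ext b
      rcases (h0 b).eq_or_lt with rfl | e
      · simpa using x1
      · simpa using x2 b e)
    simp

theorem IsJ.frag (hc : ∀ a : I, a < ⊤ → (Iic a).Countable) : MP_0d212c.Frag X := by
  refine MP_0d212c.frag_of_asplund fun F hF => ?_
  obtain ⟨D, d1, d2⟩ := hF.exists_countable_dense_subset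
  obtain ⟨δ, hδ⟩ : ∃ δ : I → X →L[ℝ] ℝ, ∀ a x, δ a x = T x a :=
    ⟨fun a => ((LinearMap.proj a).comp T).mkContinuous 1 fun x => by simpa using hT.ev x a,
      fun _ _ => rfl⟩
  have s1 : ∀ x, (support (T x)).Countable := fun x => by
    obtain ⟨c1, c2, -⟩ := (hT.rng _).1 ⟨x, rfl⟩
    refine (countable_iUnion fun n : ℕ => (?_ : {a | 1 / (n + 1 : ℝ) ≤ |T x a|}.Countable)).mono
      fun a ha => mem_iUnion.2 ((exists_nat_one_div_lt (abs_pos.2 ha)).imp fun n h => h.le)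
    rcases eq_empty_or_nonempty {a | 1 / (n + 1 : ℝ) ≤ |T x a|} with e | ⟨a, ha⟩
    · rw [e]
      exact countable_empty
    · have p : (0 : ℝ) < 1 / (n + 1) := by positivity
      obtain ⟨l, l1, l2⟩ := exists_Ioc_subset_of_mem_nhds (a := (⊤ : I))
        ((isOpen_lt c1.abs continuous_const).mem_nhds (show |T x ⊤| < 1 / (n + 1 : ℝ) by
          rwa [c2, abs_zero])) ⟨a, lt_top_iff_ne_top.2 (by
            rintro rfl
            exact not_le.2 p (by simpa [c2] using ha))⟩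
      exact (hc l l1).mono fun b hb => not_lt.1 fun e => absurd (show |T x b| < 1 / (n + 1 : ℝ) from l2 ⟨e, le_top⟩) (not_lt.2 hb)
  have s2 := ((d2.1.biUnion fun x _ => s1 x).image fun a => (δ a).comp F.subtypeL).isSeparable.span
    (R := ℝ)
  refine TopologicalSpace.isSeparable_univ_iff.1 (s2.closure.mono fun ψ _ =>
    (Metric.mem_closure_iff (α := F →L[ℝ] ℝ)).2 fun ε hε => ?_)
  obtain ⟨φ, f1, -⟩ := exists_extension_norm_eq F ψ
  obtain ⟨P, p1, p2⟩ := hT.fin φ ⊤ (ε / 2) (half_pos hε)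
  have := p1.to_subtype
  obtain ⟨θ, t1, t2⟩ := exists_extension_norm_eq (⨅ a : P, (δ a).ker) (φ.comp (Submodule.subtypeL _))
  have t3 : ‖θ‖ ≤ ε / 2 := t2.trans_le (ContinuousLinearMap.opNorm_le_bound _ (half_pos hε).le
    fun x => p2 x.1 (fun b hb => hδ b x ▸ (Submodule.mem_iInf _).1 x.2 ⟨b, hb⟩)
      fun b hb => (not_top_lt hb).elim)
  obtain ⟨c, hc⟩ := (Finsupp.mem_span_range_iff_exists_finsupp).1 (mem_span_of_iInf_ker_le_ker
    (L := fun a : P => (δ a).toLinearMap) (K := (φ - θ).toLinearMap)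
    fun x hx => sub_eq_zero.2 (t1 ⟨x, hx⟩).symm)
  refine ⟨c.sum fun a r => r • (δ a).comp F.subtypeL, Submodule.sum_mem _ fun a _ =>
    Submodule.smul_mem _ _ ?_, ?_⟩
  · by_cases e : a.1 ∈ ⋃ x ∈ D, support (T x)
    · exact Submodule.subset_span ⟨a, e, rfl⟩
    · convert Submodule.zero_mem _
      ext x
      refine closure_minimal (t := {x | δ a x = 0}) (fun y hy => ?_)
        (isClosed_eq (δ a).continuous continuous_const) (d2.2 x.2)
      by_contra c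
      exact e (mem_biUnion hy fun d => c ((hδ _ _).trans d))
  · refine lt_of_eq_of_lt (dist_eq_norm ψ _) (lt_of_le_of_lt
      (ContinuousLinearMap.opNorm_le_bound _ (half_pos hε).le fun x => ?_) (half_lt_self hε))
    have := LinearMap.congr_fun hc x.1
    simp only [Finsupp.sum, LinearMap.coe_sum, Finset.sum_apply] at this
    have e : (ψ - c.sum fun a r => r • (δ a).comp F.subtypeL) x = θ x := by
      rw [sub_apply, Finsupp.sum, sum_apply, ← f1]
      exact sub_eq_iff_eq_add.2 (sub_eq_iff_eq_add'.1 this.symm)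
    rw [e]
    exact θ.le_of_opNorm_le t3 x

end Pool.Agent.H.MP_f24657
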